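import Mathlib

/-!
Two-letter words, factor occurrences, the elementary moves, and the statements of the pieces.
A word is a `List Bool`; `true` is the long tile `b`, `false` is the short tile `a`.
-/

namespace Pool.Agent.R527.TIL

/-- Words over the two tiles: `true` = long tile, `false` = short tile. -/
abbrev W := List Bool

/-- Number of occurrences of `X` as a factor (contiguous block) of `w`
(positions `0, ..., w.length`, so `occ [] w = w.length + 1`). -/
def occ (X : W) : W → ℕ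
  | [] => if X.isPrefixOf [] then 1 else 0
  | c :: w => (if X.isPrefixOf (c :: w) then 1 else 0) + occ X w

/-- The elementary moves. -/
inductive Mv (α β : ℕ) : W → W → Prop
  | A (x y : W) : Mv α β (x ++ [false, false] ++ y) (x ++ [true, true] ++ y)
  | B (x X y : W) (h : X.count true = α) :
      Mv α β (x ++ X ++ y) (x ++ List.replicate (X.count false + β) false ++ y)

/-- `Ach f`: the function `f` is bounded above by a nonnegative combination of
`occ X - occ X'` over moves `X → X'`. -/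
def Ach (α β : ℕ) (f : W → ℤ) : Prop :=
  ∃ M : List (W × W), (∀ p ∈ M, Mv α β p.1 p.2) ∧
    ∀ w, f w ≤ (M.map fun p => ((occ p.1 w : ℤ) - (occ p.2 w : ℤ))).sum

/-- The list of tile lengths of a word. -/
def tl (a b : ℕ) (w : W) : List ℕ := w.map fun c => if c then b else a

/-- Total length of a word. -/
def wt (a b : ℕ) (w : W) : ℕ := (tl a b w).sum

/-- Two tilings (as lists of tile lengths, from left to right) share a tile: a tile of the same
length starting at the same position. -/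
def Share (T U : List ℕ) : Prop :=
  ∃ (L R L' R' : List ℕ) (x : ℕ), T = L ++ x :: R ∧ U = L' ++ x :: R' ∧ L.sum = L'.sum

/-- `T` is a tiling of `[n]` by tiles with lengths in `Λ`. -/
def IsTiling (Λ : Finset ℕ) (n : ℕ) (T : List ℕ) : Prop := (∀ x ∈ T, x ∈ Λ) ∧ T.sum = n

/-! ### Statements of the pieces -/

/-- Piece OCC: basic facts on `occ`. -/
def S_OCC : Prop :=
  (∀ w, occ [] w = w.length + 1) ∧
  (∀ Y w, occ (Y ++ [false]) w + occ (Y ++ [true]) w ≤ occ Y w) ∧
  (∀ Y w, occ Y w ≤ occ (Y ++ [false]) w + occ (Y ++ [true]) w + 1) ∧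
  (∀ x Y y w, occ (x ++ Y ++ y) w ≤ occ Y w) ∧
  (∀ Y u Z Z' v, occ Y (u ++ Z ++ v) ≤ occ Y (u ++ Z' ++ v) + Z.length + Y.length)

/-- Piece CALC: closure properties of `Ach`, and the chain lemma. -/
def S_CALC : Prop :=
  ∀ α β : ℕ,
  (∀ f g, Ach α β f → Ach α β g → Ach α β (fun w => f w + g w)) ∧
  (∀ f g, Ach α β f → (∀ w, g w ≤ f w) → Ach α β g) ∧
  (∀ (n : ℕ) f, Ach α β f → Ach α β (fun w => (n : ℤ) * f w)) ∧
  (∀ X X', Mv α β X X' → Ach α β (fun w => (occ X w : ℤ) - occ X' w)) ∧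
  -- chain of `A`-moves
  (∀ (x y : W) (h r : ℕ), Ach α β (fun w =>
      (occ (x ++ List.replicate (2 * h + r) false ++ y) w : ℤ)
        - occ (x ++ (List.replicate (2 * h) true ++ List.replicate r false) ++ y) w)) ∧
  -- a `B`-move followed by a chain of `A`-moves
  (∀ (x X y : W) (h r : ℕ), X.count true = α → X.count false + β = 2 * h + r →
      Ach α β (fun w => (occ (x ++ X ++ y) w : ℤ)
        - occ (x ++ (List.replicate (2 * h) true ++ List.replicate r false) ++ y) w))

/-- Piece KILL: the factor `b^α` is cheap. -/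
def S_KILL : Prop :=
  ∀ α β : ℕ, 1 ≤ α → α + 1 ≤ β →
    ∃ C : ℤ, Ach α β (fun w => (occ (List.replicate α true) w : ℤ) - C)

/-- Piece LONG: every long word has a chain ending in a word containing `b^α`. -/
def S_LONG : Prop :=
  ∀ α β : ℕ, 1 ≤ α → α + 1 ≤ β →
    ∃ K : ℕ, ∀ Y : W, K ≤ Y.length →
      Ach α β (fun w => (occ Y w : ℤ) - occ (List.replicate α true) w)

/-- Piece COUNT: the length is bounded by an achievable function. -/
def S_COUNT : Prop :=
  ∀ α β : ℕ, 1 ≤ α → α + 1 ≤ β → ∃ C : ℤ, Ach α β (fun w => (w.length : ℤ) - C)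

/-- Piece HALL: a multigraph with `deg (src e) ≥ deg (tgt e)` for all edges and positive source
degrees has a matching saturating the sources. -/
def S_HALL : Prop :=
  ∀ (ε A B : Type) [DecidableEq ε] [DecidableEq A] [DecidableEq B] [Inhabited B]
    (E : Finset ε) (src : ε → A) (tgt : ε → B) (S : Finset A),
    (∀ x ∈ S, ∃ e ∈ E, src e = x) →
    (∀ e ∈ E, (E.filter fun e' => tgt e' = tgt e).card ≤ (E.filter fun e' => src e' = src e).card) →
    ∃ Φ : A → B, Set.InjOn Φ (S : Set A) ∧ ∀ x ∈ S, ∃ e ∈ E, src e = x ∧ tgt e = Φ x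

/-- Piece MATCH: from the counting statement to an injection along moves. -/
def S_MATCH : Prop :=
  ∀ α β a b : ℕ, 0 < a → a < b → (∃ C : ℤ, Ach α β (fun w => (w.length : ℤ) - C)) →
    ∃ m0, ∀ m ≥ m0, ∃ Φ : W → W, Set.InjOn Φ {w | wt a b w = m} ∧
      ∀ w, wt a b w = m → Mv α β w (Φ w)

/-- Piece COMPAT: words joined by a move give tile-disjoint tilings. -/
def S_COMPAT : Prop :=
  ∀ α β a b : ℕ, 0 < a → a < b → ¬ a ∣ b → (α + 2) * b = (β + 2) * a →
    (∀ t, 1 ≤ t → t ≤ α + 1 → ¬ a ∣ t * b) →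
    (∀ w, ¬ Share (b :: tl a b w ++ [a]) (a :: tl a b w ++ [b])) ∧
    (∀ w w', Mv α β w w' → ¬ Share (b :: tl a b w ++ [b]) (a :: tl a b w' ++ [a])) ∧
    (∀ w w', Mv α β w w' → b + wt a b w + b = a + wt a b w' + a)

/-- Piece FINAL: the theorem for two-element sets. -/
def S_FINAL : Prop :=
  ∀ a b : ℕ, 0 < a → a < b → ¬ a ∣ b →
    ∃ N : ℕ, ∀ n ≥ N, ∀ F : Finset (List ℕ), (∀ T ∈ F, IsTiling {a, b} n T) →
      (∀ T ∈ F, ∀ U ∈ F, T ≠ U → Share T U) →
      F.card ≤ Set.ncard {T | IsTiling {a, b} (n - a) T}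

/-- Piece INTV: the theorem for the interval `{ℓ, ..., 2ℓ-1}` of tile lengths. -/
def S_INTV : Prop :=
  ∀ l : ℕ, 2 ≤ l →
    ∃ N : ℕ, ∀ n ≥ N, ∀ F : Finset (List ℕ), (∀ T ∈ F, IsTiling (Finset.Icc l (2 * l - 1)) n T) →
      (∀ T ∈ F, ∀ U ∈ F, T ≠ U → Share T U) →
      F.card ≤ Set.ncard {T | IsTiling (Finset.Icc l (2 * l - 1)) (n - l) T}

end Pool.Agent.R527.TIL
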