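import Pool.Agent.R527.TIL.Defs

namespace Pool.Agent.R527.TIL

theorem calc_zero (α β : ℕ) : Ach α β (fun _ => 0) :=
  ⟨[], by simp, by simp⟩

theorem calc_add {α β : ℕ} {f g : W → ℤ} (hf : Ach α β f) (hg : Ach α β g) :
    Ach α β (fun w => f w + g w) := by
  obtain ⟨M, hM, h1⟩ := hf
  obtain ⟨M', hM', h2⟩ := hg
  refine ⟨M ++ M', ?_, ?_⟩
  · intro p hp
    rcases List.mem_append.mp hp with h | h
    · exact hM p h
    · exact hM' p h
  · intro w
    rw [List.map_append, List.sum_append]
    exact add_le_add (h1 w) (h2 w)

theorem calc_mono {α β : ℕ} {f g : W → ℤ} (hf : Ach α β f) (h : ∀ w, g w ≤ f w) : Ach α β g := by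
  obtain ⟨M, hM, h1⟩ := hf
  exact ⟨M, hM, fun w => (h w).trans (h1 w)⟩

theorem calc_smul {α β : ℕ} (n : ℕ) {f : W → ℤ} (hf : Ach α β f) :
    Ach α β (fun w => (n : ℤ) * f w) := by
  induction n with
  | zero => exact calc_mono (calc_zero α β) (fun w => by simp)
  | succ n ih =>
    refine calc_mono (calc_add ih hf) (fun w => ?_)
    push_cast
    linarith

theorem calc_move {α β : ℕ} {X X' : W} (h : Mv α β X X') :
    Ach α β (fun w => (occ X w : ℤ) - occ X' w) :=
  ⟨[(X, X')], by simpa using h, by simp⟩

theorem calc_chain (α β : ℕ) (h : ℕ) : ∀ (x y : W) (r : ℕ), Ach α β (fun w =>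
      (occ (x ++ List.replicate (2 * h + r) false ++ y) w : ℤ)
        - occ (x ++ (List.replicate (2 * h) true ++ List.replicate r false) ++ y) w) := by
  induction h with
  | zero =>
    intro x y r
    refine calc_mono (calc_zero α β) (fun w => ?_)
    simp
  | succ h ih =>
    intro x y r
    have h1 := ih x y (r + 2)
    have hmv : Mv α β ((x ++ List.replicate (2 * h) true) ++ [false, false] ++
        (List.replicate r false ++ y)) ((x ++ List.replicate (2 * h) true) ++ [true, true] ++
        (List.replicate r false ++ y)) := Mv.A _ _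
    have h2 := calc_move hmv
    refine calc_mono (calc_add h1 h2) (fun w => ?_)
    have e1 : 2 * (h + 1) + r = 2 * h + (r + 2) := by ring
    have e2 : x ++ (List.replicate (2 * h) true ++ List.replicate (r + 2) false) ++ y =
        (x ++ List.replicate (2 * h) true) ++ [false, false] ++ (List.replicate r false ++ y) := by
      have : List.replicate (r + 2) false = [false, false] ++ List.replicate r false := by
        rw [show r + 2 = r + 1 + 1 from rfl, List.replicate_succ, List.replicate_succ]; rfl
      rw [this]; simp [List.append_assoc]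
    have e3 : x ++ (List.replicate (2 * (h + 1)) true ++ List.replicate r false) ++ y =
        (x ++ List.replicate (2 * h) true) ++ [true, true] ++ (List.replicate r false ++ y) := by
      have : List.replicate (2 * (h + 1)) true = List.replicate (2 * h) true ++ [true, true] := by
        rw [show 2 * (h + 1) = 2 * h + 2 by ring, List.replicate_add]; rfl
      rw [this]; simp [List.append_assoc]
    rw [e1, e3, e2]
    linarith

theorem t_CALC : S_CALC := by
  intro α β
  refine ⟨fun f g hf hg => calc_add hf hg, fun f g hf h => calc_mono hf h,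
    fun n f hf => calc_smul n hf, fun X X' h => calc_move h,
    fun x y h r => calc_chain α β h x y r, ?_⟩
  intro x X y h r hX hr
  have h1 := calc_move (Mv.B (α := α) (β := β) x X y hX)
  have h2 := calc_chain α β h x y r
  refine calc_mono (calc_add h1 h2) (fun w => ?_)
  rw [hr]
  linarith

end Pool.Agent.R527.TIL
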