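import Pool.Agent.R527.TIL.Defs

namespace Pool.Agent.R527.TIL

namespace Compat

theorem wt_append (a b : ℕ) (x y : W) : wt a b (x ++ y) = wt a b x + wt a b y := by
  simp [wt, tl]

theorem wt_cons (a b : ℕ) (c : Bool) (x : W) :
    wt a b (c :: x) = (if c then b else a) + wt a b x := by
  simp [wt, tl]

theorem wt_eq (a b : ℕ) (x : W) : wt a b x = a * x.count false + b * x.count true := by
  induction x with
  | nil => simp [wt, tl]
  | cons c x ih =>
    rw [wt_cons, ih]; cases c <;> simp <;> ring

theorem keyK {a b : ℕ} (ha : 0 < a) (hnd : ¬ a ∣ b) (x : W)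
    (h : wt a b x + a = b) : False := by
  rw [wt_eq] at h
  rcases Nat.eq_zero_or_pos (x.count true) with h0 | h0
  · rw [h0] at h
    exact hnd ⟨x.count false + 1, by rw [← h]; ring⟩
  · have : b ≤ b * x.count true := Nat.le_mul_of_pos_right b h0
    omega

theorem share_tl {a b : ℕ} (hab : a < b) {t u : W} (h : Share (tl a b t) (tl a b u)) :
    ∃ (l r l' r' : W) (c : Bool), t = l ++ c :: r ∧ u = l' ++ c :: r' ∧
      wt a b l = wt a b l' := by
  obtain ⟨L, R, L', R', x, h1, h2, h3⟩ := h
  unfold tl at h1 h2
  rw [List.map_eq_append_iff] at h1 h2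
  obtain ⟨l, m, rfl, hl, hm⟩ := h1
  obtain ⟨l', m', rfl, hl', hm'⟩ := h2
  rw [List.map_eq_cons_iff] at hm hm'
  obtain ⟨c, r, rfl, hc, hr⟩ := hm
  obtain ⟨c', r', rfl, hc', hr'⟩ := hm'
  have hcc : c = c' := by
    cases c <;> cases c' <;> simp_all <;> omega
  subst hcc
  exact ⟨l, r, l', r', c, rfl, rfl, by unfold wt tl; rw [hl, hl']; exact h3⟩

theorem heads {a b : ℕ} (ha : 0 < a) (hab : a < b) {p q : W}
    (h : Share (tl a b (true :: p)) (tl a b (false :: q))) :
    ∃ (l r l' r' : W) (c : Bool), p = l ++ c :: r ∧ q = l' ++ c :: r' ∧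
      b + wt a b l = a + wt a b l' := by
  obtain ⟨l, r, l', r', c, h1, h2, h3⟩ := share_tl hab h
  cases l with
  | nil =>
    cases l' with
    | nil => simp at h1 h2; rw [h1.1] at h2; simp at h2
    | cons d l' =>
      rw [wt_cons] at h3
      have h0 : wt a b [] = 0 := rfl
      rw [h0] at h3
      cases d <;> simp at h3 <;> omega
  | cons e l =>
    cases l' with
    | nil =>
      rw [wt_cons] at h3
      have h0 : wt a b [] = 0 := rfl
      rw [h0] at h3
      cases e <;> simp at h3 <;> omega
    | cons d l' =>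
      simp only [List.cons_append, List.cons.injEq] at h1 h2
      refine ⟨l, r, l', r', c, h1.2, h2.2, ?_⟩
      rw [wt_cons, wt_cons, ← h1.1, ← h2.1] at h3
      simpa using h3

theorem pre1 {w l r : W} {c d : Bool} (h : w ++ [d] = l ++ c :: r) : ∃ m, w = l ++ m := by
  rw [List.append_eq_append_iff] at h
  rcases h with ⟨as, h1, h2⟩ | ⟨bs, h1, h2⟩
  · cases as with
    | nil => exact ⟨[], by simpa using h1.symm⟩
    | cons e as =>
      exfalso
      have := congrArg List.length h2
      simp at this
  · exact ⟨bs, h1⟩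

theorem split3 {u X V l r : W} {c : Bool} (h : u ++ (X ++ V) = l ++ c :: r) :
    (∃ m, u = l ++ m) ∨ (∃ x1 x2, l = u ++ x1 ∧ X = x1 ++ c :: x2) ∨
      (∃ v1, l = u ++ (X ++ v1) ∧ V = v1 ++ c :: r) := by
  rw [List.append_eq_append_iff] at h
  rcases h with ⟨as, h1, h2⟩ | ⟨bs, h1, h2⟩
  · rw [List.append_eq_append_iff] at h2
    rcases h2 with ⟨as2, h3, h4⟩ | ⟨bs, h3, h4⟩
    · right; right
      exact ⟨as2, by rw [h1, h3], h4⟩
    · cases bs with
      | nil =>
        right; right
        refine ⟨[], ?_, ?_⟩
        · rw [h1, h3]; simp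
        · simpa using h4.symm
      | cons e bs =>
        right; left
        simp only [List.cons_append, List.cons.injEq] at h4
        exact ⟨as, bs, h1, by rw [h3, h4.1]⟩
  · left; exact ⟨bs, h1⟩

/-- comparing two prefixes of the same word -/
theorem prefs {l l' m m' : W} (h : l ++ m = l' ++ m') : (∃ x, l' = l ++ x) ∨ (∃ x, l = l' ++ x) := by
  rw [List.append_eq_append_iff] at h
  rcases h with ⟨as, h1, _⟩ | ⟨bs, h1, _⟩
  · left; exact ⟨as, h1⟩
  · right; exact ⟨bs, h1⟩

theorem cmp {a b : ℕ} (ha : 0 < a) (hab : a < b) (hnd : ¬ a ∣ b) {l l' m m' : W}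
    (h : l ++ m = l' ++ m') (hE : b + wt a b l = a + wt a b l') : False := by
  rcases prefs h with ⟨x, rfl⟩ | ⟨x, rfl⟩
  · rw [wt_append] at hE
    exact keyK ha hnd x (by omega)
  · rw [wt_append] at hE
    omega

theorem general {a b : ℕ} (ha : 0 < a) (hab : a < b) (hnd : ¬ a ∣ b) (u v X X' : W)
    (hX : wt a b X' + 2 * a = wt a b X + 2 * b)
    (h22 : ∀ x1 x2 x1' x2' : W, ∀ c : Bool, X = x1 ++ c :: x2 → X' = x1' ++ c :: x2' →
      b + wt a b x1 = a + wt a b x1' → False) :
    ¬ Share (tl a b (true :: (u ++ (X ++ (v ++ [true])))))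
        (tl a b (false :: (u ++ (X' ++ (v ++ [false]))))) := by
  intro h
  obtain ⟨l, r, l', r', c, h1, h2, hE⟩ := heads ha hab h
  rcases split3 h1 with ⟨m, hm⟩ | ⟨x1, x2, hl, hx⟩ | ⟨v1, hl, hv⟩
  · rcases split3 h2 with ⟨m', hm'⟩ | ⟨x1', x2', hl', hx'⟩ | ⟨v1', hl', hv'⟩
    · exact cmp ha hab hnd (hm.symm.trans hm') hE
    · rw [hm, List.append_assoc] at hl'
      exact cmp ha hab hnd (l := l) (l' := l') (m := m ++ x1') (m' := [])
        (by rw [List.append_nil]; exact hl'.symm) hE
    · rw [hm, List.append_assoc] at hl'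
      exact cmp ha hab hnd (l := l) (l' := l') (m := m ++ (X' ++ v1')) (m' := [])
        (by rw [List.append_nil]; exact hl'.symm) hE
  · rcases split3 h2 with ⟨m', hm'⟩ | ⟨x1', x2', hl', hx'⟩ | ⟨v1', hl', hv'⟩
    · rw [hl, hm', wt_append, wt_append] at hE
      omega
    · rw [hl, hl', wt_append, wt_append] at hE
      exact h22 x1 x2 x1' x2' c hx hx' (by omega)
    · rw [hl, hl', wt_append, wt_append, wt_append] at hE
      have h3 : wt a b X = wt a b x1 + ((if c then b else a) + wt a b x2) := by
        rw [hx, wt_append, wt_cons]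
      have h4 : a ≤ (if c then b else a) := by cases c <;> simp; omega
      omega
  · rcases split3 h2 with ⟨m', hm'⟩ | ⟨x1', x2', hl', hx'⟩ | ⟨v1', hl', hv'⟩
    · rw [hl, hm', wt_append, wt_append, wt_append] at hE
      omega
    · rw [hl, hl', wt_append, wt_append, wt_append] at hE
      have h3 : wt a b X' = wt a b x1' + wt a b (c :: x2') := by
        rw [hx', wt_append]
      refine keyK ha hnd ((c :: x2') ++ v1) ?_
      rw [wt_append]
      omega
    · rw [hl, hl', wt_append, wt_append, wt_append, wt_append] at hE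
      obtain ⟨m, hm⟩ := pre1 hv
      obtain ⟨m', hm'⟩ := pre1 hv'
      rcases prefs (hm.symm.trans hm') with ⟨x, rfl⟩ | ⟨x, rfl⟩
      · rw [wt_append] at hE
        omega
      · rw [wt_append] at hE
        exact keyK ha hnd x (by omega)

theorem wtA (a b : ℕ) (x y : W) :
    wt a b (x ++ [true, true] ++ y) + 2 * a = wt a b (x ++ [false, false] ++ y) + 2 * b := by
  simp only [wt_append, wt_cons]
  simp
  ring

theorem wt_rep (a b n : ℕ) : wt a b (List.replicate n false) = a * n := by
  rw [wt_eq]; simp [List.count_replicate]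

theorem wtB {α β a b : ℕ} (hc : (α + 2) * b = (β + 2) * a) (X : W) (h : X.count true = α) :
    wt a b (List.replicate (X.count false + β) false) + 2 * a = wt a b X + 2 * b := by
  rw [wt_rep, wt_eq, h]
  linarith [hc, mul_comm a β, mul_comm b α, mul_add a (X.count false) β]

end Compat

open Compat

theorem t_COMPAT : S_COMPAT := by
  intro α β a b ha hab hnd hc ht
  refine ⟨?_, ?_, ?_⟩
  · intro w h
    have h' : Share (tl a b (true :: (w ++ [false]))) (tl a b (false :: (w ++ [true]))) := by
      simpa [tl] using h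
    obtain ⟨l, r, l', r', c, h1, h2, hE⟩ := heads ha hab h'
    obtain ⟨m, hm⟩ := pre1 h1
    obtain ⟨m', hm'⟩ := pre1 h2
    exact cmp ha hab hnd (hm.symm.trans hm') hE
  · intro w w' hw h
    cases hw with
    | A x y =>
      refine general ha hab hnd x y [false, false] [true, true] ?_ ?_ (by simpa [tl] using h)
      · simp only [wt_cons]; simp; ring
      · intro x1 x2 x1' x2' c h1 h2 _
        have hc1 : c ∈ ([false, false] : W) := by rw [h1]; simp
        have hc2 : c ∈ ([true, true] : W) := by rw [h2]; simp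
        simp at hc1 hc2
        rw [hc1] at hc2
        exact absurd hc2 (by decide)
    | B x X y hX =>
      refine general ha hab hnd x y X (List.replicate (X.count false + β) false) ?_ ?_
        (by simpa [tl] using h)
      · exact wtB hc X hX
      · intro x1 x2 x1' x2' c h1 h2 hE
        have hx1' : x1' = List.replicate x1'.length false := by
          rw [List.eq_replicate_iff]
          refine ⟨rfl, fun d hd => ?_⟩
          have : d ∈ List.replicate (X.count false + β) false := by
            rw [h2]; simp [hd]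
          exact List.eq_of_mem_replicate this
        have hle : x1.count true ≤ α := by
          rw [← hX, h1, List.count_append]; omega
        rw [hx1', wt_rep, wt_eq] at hE
        refine ht (x1.count true + 1) (by omega) (by omega) ?_
        have h5 : (x1.count true + 1) * b + a * x1.count false = a * (1 + x1'.length) := by
          linarith [mul_comm b (x1.count true), hE,
            add_mul (x1.count true) 1 b, mul_add a 1 x1'.length]
        have h6 : a ∣ (x1.count true + 1) * b + a * x1.count false := ⟨_, h5⟩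
        exact (Nat.dvd_add_left (Dvd.intro _ rfl)).mp h6
  · intro w w' hw
    cases hw with
    | A x y =>
      have := wtA a b x y
      omega
    | B x X y hX =>
      have := wtB hc X hX
      simp only [wt_append]
      omega

end Pool.Agent.R527.TIL
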