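import Pool.Agent.R527.TIL.Defs

namespace Pool.Agent.R527.TIL

theorem t_COUNT : S_OCC → S_CALC → S_KILL → S_LONG → S_COUNT := by
  intro hO hC hK hL α β hα hβ
  obtain ⟨K, hK'⟩ := hL α β hα hβ
  obtain ⟨C, hC0⟩ := hK α β hα hβ
  obtain ⟨c1, c2, c3, c4, c5, c6⟩ := hC α β
  have good : ∀ (n : ℕ) (Y : W), K ≤ Y.length + n → ∃ (C1 : ℕ) (C2 : ℤ),
      Ach α β (fun w => (occ Y w : ℤ) - C1 * occ (List.replicate α true) w - C2) := by
    intro n
    induction n with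
    | zero =>
      intro Y hY
      exact ⟨1, 0, c2 _ _ (hK' Y (by simpa using hY)) (fun w => by simp)⟩
    | succ n ih =>
      intro Y hY
      obtain ⟨A1, A2, hA⟩ := ih (Y ++ [false]) (by simp; omega)
      obtain ⟨B1, B2, hB⟩ := ih (Y ++ [true]) (by simp; omega)
      refine ⟨A1 + B1, A2 + B2 + 1, c2 _ _ (c1 _ _ hA hB) ?_⟩
      intro w
      have h : (occ Y w : ℤ) ≤ occ (Y ++ [false]) w + occ (Y ++ [true]) w + 1 := by
        exact_mod_cast hO.2.2.1 Y w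
      push_cast
      linarith
  obtain ⟨C1, C2, hG⟩ := good K [] (by simp)
  refine ⟨C2 + C1 * C - 1, c2 _ _ (c1 _ _ hG (c3 C1 _ hC0)) ?_⟩
  intro w
  have h := hO.1 w
  simp only [h]
  push_cast
  linarith

end Pool.Agent.R527.TIL
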