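import Pool.Agent.R527.TIL.Defs

namespace Pool.Agent.R527.TIL

namespace FinalAux

variable {a b : ℕ}

theorem exists_word (T : List ℕ) (h : ∀ x ∈ T, x = a ∨ x = b) : ∃ w : W, tl a b w = T := by
  induction T with
  | nil => exact ⟨[], rfl⟩
  | cons x T ih =>
    obtain ⟨w, hw⟩ := ih fun y hy => h y (List.mem_cons_of_mem _ hy)
    rcases h x List.mem_cons_self with rfl | rfl
    · exact ⟨false :: w, by simp [tl] at hw ⊢; exact hw⟩
    · exact ⟨true :: w, by simp [tl] at hw ⊢; exact hw⟩

theorem mem_tl {w : W} {x : ℕ} (h : x ∈ tl a b w) : x = a ∨ x = b := by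
  unfold tl at h
  rw [List.mem_map] at h
  obtain ⟨c, -, hc⟩ := h
  cases c
  · left
    simpa using hc.symm
  · right
    simpa using hc.symm

theorem tl_inj (hab : a < b) : Function.Injective (tl a b) := by
  unfold tl
  rw [List.map_injective_iff]
  intro c d h
  cases c <;> cases d <;> simp at h <;> first | rfl | omega

theorem length_le (ha : 0 < a) (hb : 0 < b) (w : W) : w.length ≤ wt a b w := by
  unfold wt tl
  induction w with
  | nil => simp
  | cons c w ih =>
    rw [List.map_cons, List.sum_cons, List.length_cons]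
    cases c
    · simp
      omega
    · simp
      omega

theorem ends {n : ℕ} {T : List ℕ} (hab : a < b) (hT : IsTiling {a, b} n T) (hn : 2 * b + 1 ≤ n) :
    ∃ (x y : ℕ) (M : List ℕ), T = x :: M ++ [y] ∧ (x = a ∨ x = b) ∧ (y = a ∨ y = b) ∧
      (∀ z ∈ M, z = a ∨ z = b) ∧ x + M.sum + y = n := by
  obtain ⟨h1, h2⟩ := hT
  have hle : ∀ z ∈ T, z = a ∨ z = b := by
    intro z hz
    have := h1 z hz
    simpa using this
  rcases T with _ | ⟨x, T'⟩
  · simp at h2
    omega
  have hx := hle x List.mem_cons_self
  rcases List.eq_nil_or_concat T' with rfl | ⟨M, y, rfl⟩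
  · simp at h2
    omega
  have hy := hle y (by simp)
  refine ⟨x, y, M, by simp, hx, hy, fun z hz => hle z (by simp [hz]), ?_⟩
  simp at h2
  omega

end FinalAux

open FinalAux in
theorem t_FINAL : S_COUNT → S_MATCH → S_COMPAT → S_FINAL := by
  intro hCount hMatch hCompat a b ha hab hdvd
  have hb : 0 < b := by omega
  set g := Nat.gcd a b with hg
  have hg0 : 0 < g := Nat.gcd_pos_of_pos_left b ha
  obtain ⟨a', ha'⟩ : g ∣ a := Nat.gcd_dvd_left a b
  obtain ⟨b', hb'⟩ : g ∣ b := Nat.gcd_dvd_right a b
  have hcop : Nat.Coprime a' b' := by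
    have h1 := Nat.coprime_div_gcd_div_gcd (m := a) (n := b) hg0
    rw [← hg] at h1
    rwa [show a / g = a' by rw [ha']; exact Nat.mul_div_cancel_left _ hg0,
      show b / g = b' by rw [hb']; exact Nat.mul_div_cancel_left _ hg0] at h1
  have ha'0 : 0 < a' := by
    rcases Nat.eq_zero_or_pos a' with h | h
    · rw [h] at ha'
      omega
    · exact h
  have ha'2 : 2 ≤ a' := by
    by_contra hc
    have h1 : a' = 1 := by omega
    apply hdvd
    have h2 : a = g := by
      have := ha'
      rw [h1, mul_one] at this
      exact this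
    rw [h2]
    exact Nat.gcd_dvd_right a b
  have hab' : a' < b' := by
    have h1 : g * a' < g * b' := by omega
    exact Nat.lt_of_mul_lt_mul_left h1
  set α := a' - 2 with hα
  set β := b' - 2 with hβ
  have hα2 : α + 2 = a' := by omega
  have hβ2 : β + 2 = b' := by omega
  have heq : (α + 2) * b = (β + 2) * a := by
    rw [hα2, hβ2]
    calc a' * b = a' * (g * b') := by rw [← hb']
      _ = b' * (g * a') := by ring
      _ = b' * a := by rw [← ha']
  have hnd : ∀ t, 1 ≤ t → t ≤ α + 1 → ¬ a ∣ t * b := by
    intro t h1 h2 hd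
    have h3 : g * a' ∣ g * (t * b') := by
      have e : g * (t * b') = t * b := by
        calc g * (t * b') = t * (g * b') := by ring
          _ = t * b := by rw [← hb']
      rw [e, ← ha']
      exact hd
    have h4 : a' ∣ t * b' := Nat.dvd_of_mul_dvd_mul_left hg0 h3
    have h5 : a' ∣ t := hcop.dvd_of_dvd_mul_right h4
    have h6 := Nat.le_of_dvd (by omega) h5
    omega
  obtain ⟨c1, c2, c3⟩ := hCompat α β a b ha hab hdvd heq hnd
  -- the injection along moves
  have hPhi : ∃ m0, ∀ m ≥ m0, ∃ Φ : W → W, Set.InjOn Φ {w | wt a b w = m} ∧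
      ∀ w, wt a b w = m → Mv α β w (Φ w) := by
    rcases Nat.eq_zero_or_pos α with h0 | h0
    · refine ⟨0, fun m _ => ⟨fun w => List.replicate β false ++ w, ?_, ?_⟩⟩
      · intro w _ w' _ h
        exact List.append_cancel_left h
      · intro w _
        have h1 := Mv.B (α := α) (β := β) [] [] w (by simp [h0])
        simpa using h1
    · exact hMatch α β a b ha hab (hCount α β h0 (by omega))
  obtain ⟨m0, hm0⟩ := hPhi
  refine ⟨m0 + 2 * b + 1, fun n hn F hF hShare => ?_⟩
  obtain ⟨Φ, hΦinj, hΦ⟩ := hm0 (n - 2 * b) (by omega)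
  set S : Set (List ℕ) := {T | IsTiling {a, b} (n - a) T} with hS
  have hfin : S.Finite := by
    have h1 : (tl a b '' {w : W | w.length ≤ n}).Finite :=
      (List.finite_length_le Bool n).image _
    refine h1.subset ?_
    intro T hT
    obtain ⟨w, hw⟩ := exists_word (a := a) (b := b) T (fun x hx => by simpa using hT.1 x hx)
    refine ⟨w, ?_, hw⟩
    have h2 := length_le ha hb w
    have h3 : wt a b w = n - a := by
      unfold wt
      rw [hw]
      exact hT.2
    show w.length ≤ n
    omega
  -- the relation
  let Rel : List ℕ → List ℕ → Prop := fun T R =>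
    T = a :: R ∨ (∃ w : W, T = b :: tl a b w ++ [a] ∧ R = tl a b w ++ [b]) ∨
      (∃ w : W, wt a b w = n - 2 * b ∧ T = b :: tl a b w ++ [b] ∧ R = tl a b (Φ w) ++ [a])
  have hex : ∀ T ∈ F, ∃ R ∈ S, Rel T R := by
    intro T hT
    obtain ⟨x, y, M, hTe, hx, hy, hM, hsum⟩ := ends hab (hF T hT) (by omega)
    obtain ⟨w, hw⟩ := exists_word M hM
    have hwt : wt a b w = M.sum := by
      unfold wt
      rw [hw]
    rcases hx with rfl | rfl
    · refine ⟨M ++ [y], ⟨?_, ?_⟩, Or.inl (by rw [hTe]; rfl)⟩
      · intro z hz
        rw [List.mem_append, List.mem_singleton] at hz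
        rcases hz with hz | rfl
        · simpa using hM z hz
        · simpa using hy
      · rw [List.sum_append, List.sum_singleton]
        omega
    · rcases hy with rfl | rfl
      · refine ⟨M ++ [x], ⟨?_, ?_⟩, Or.inr (Or.inl ⟨w, by rw [hw, hTe], by rw [hw]⟩)⟩
        · intro z hz
          rw [List.mem_append, List.mem_singleton] at hz
          rcases hz with hz | rfl
          · simpa using hM z hz
          · simp
        · rw [List.sum_append, List.sum_singleton]
          omega
      · have hwm : wt a y w = n - 2 * y := by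
          rw [hwt]
          omega
        have hmv := hΦ w hwm
        have hc3 := c3 w (Φ w) hmv
        refine ⟨tl a y (Φ w) ++ [a], ⟨?_, ?_⟩, Or.inr (Or.inr ⟨w, hwm, by rw [hw, hTe], rfl⟩)⟩
        · intro z hz
          rw [List.mem_append, List.mem_singleton] at hz
          rcases hz with hz | rfl
          · simpa using mem_tl hz
          · simp
        · rw [List.sum_append, List.sum_singleton]
          have h1 : (tl a y (Φ w)).sum = wt a y (Φ w) := rfl
          rw [h1]
          omega
  choose! θ hθS hθR using hex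
  have hinj : Set.InjOn θ (F : Set (List ℕ)) := by
    intro T hT U hU h
    by_contra hne
    have s1 := hShare T hT U hU hne
    have s2 := hShare U hU T hT (Ne.symm hne)
    have r1 := hθR T hT
    have r2 := hθR U hU
    rw [h] at r1
    rcases r1 with e1 | ⟨w, e1, f1⟩ | ⟨w, hw, e1, f1⟩
    · rcases r2 with e2 | ⟨w2, e2, f2⟩ | ⟨w2, hw2, e2, f2⟩
      · exact hne (e1.trans e2.symm)
      · apply c1 w2
        rw [← e2]
        have : a :: tl a b w2 ++ [b] = T := by rw [e1, f2]; rfl
        rw [this]
        exact s2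
      · apply c2 w2 (Φ w2) (hΦ w2 hw2)
        rw [← e2]
        have : a :: tl a b (Φ w2) ++ [a] = T := by rw [e1, f2]; rfl
        rw [this]
        exact s2
    · rcases r2 with e2 | ⟨w2, e2, f2⟩ | ⟨w2, hw2, e2, f2⟩
      · apply c1 w
        rw [← e1]
        have : a :: tl a b w ++ [b] = U := by rw [e2, f1]; rfl
        rw [this]
        exact s1
      · rw [f1] at f2
        have := List.append_inj_left' f2 rfl
        rw [this] at e1
        exact hne (e1.trans e2.symm)
      · rw [f1] at f2
        have := List.append_inj_right' f2 rfl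
        simp at this
        omega
    · rcases r2 with e2 | ⟨w2, e2, f2⟩ | ⟨w2, hw2, e2, f2⟩
      · apply c2 w (Φ w) (hΦ w hw)
        rw [← e1]
        have : a :: tl a b (Φ w) ++ [a] = U := by rw [e2, f1]; rfl
        rw [this]
        exact s1
      · rw [f1] at f2
        have := List.append_inj_right' f2 rfl
        simp at this
        omega
      · rw [f1] at f2
        have h3 := List.append_inj_left' f2 rfl
        have h4 := tl_inj hab h3
        have h5 : w = w2 := hΦinj hw hw2 h4
        rw [h5] at e1
        exact hne (e1.trans e2.symm)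
  calc F.card = (F : Set (List ℕ)).ncard := (Set.ncard_coe_finset F).symm
    _ = (θ '' (F : Set (List ℕ))).ncard := hinj.ncard_image.symm
    _ ≤ S.ncard := by
        refine Set.ncard_le_ncard ?_ hfin
        rintro _ ⟨T, hT, rfl⟩
        exact hθS T hT

end Pool.Agent.R527.TIL
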