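import Pool.Agent.R527.TIL.Defs

namespace Pool.Agent.R527.TIL

theorem t_HALL : S_HALL := by
  intro ε A B _ _ _ _ E src tgt S hS hdeg
  classical
  have key : ∃ f : S → B, Function.Injective f ∧
      ∀ x : S, f x ∈ (E.filter fun e => src e = x).image tgt := by
    rw [← Finset.all_card_le_biUnion_card_iff_exists_injective]
    intro s
    set T : Finset A := s.map (Function.Embedding.subtype _) with hT
    set N : Finset B := s.biUnion fun x => (E.filter fun e => src e = x).image tgt with hN
    set EE : Finset ε := E.filter fun e => src e ∈ T with hEE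
    have hTS : ∀ x ∈ T, x ∈ S := by
      intro x hx
      rw [hT, Finset.mem_map] at hx
      obtain ⟨y, _, rfl⟩ := hx
      exact y.2
    have h1 : ∑ e ∈ EE, (1 : ℚ) / ((E.filter fun e' => src e' = src e).card : ℚ) = T.card := by
      rw [← Finset.sum_fiberwise_of_maps_to (s := EE) (t := T) (g := src)
        (fun e he => (Finset.mem_filter.1 he).2)]
      rw [Finset.sum_congr rfl (g := fun _ => (1 : ℚ))]
      · simp
      · intro x hx
        have h2 : EE.filter (fun e => src e = x) = E.filter (fun e => src e = x) := by
          ext e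
          simp only [hEE, Finset.mem_filter]
          constructor
          · rintro ⟨⟨h3, _⟩, h4⟩; exact ⟨h3, h4⟩
          · rintro ⟨h3, h4⟩; exact ⟨⟨h3, h4 ▸ hx⟩, h4⟩
        rw [h2]
        rw [Finset.sum_congr rfl
          (g := fun _ => (1 : ℚ) / ((E.filter fun e' => src e' = x).card : ℚ))]
        · rw [Finset.sum_const, nsmul_eq_mul]
          obtain ⟨e, he, hex⟩ := hS x (hTS x hx)
          have h5 : 0 < (E.filter fun e' => src e' = x).card :=
            Finset.card_pos.2 ⟨e, Finset.mem_filter.2 ⟨he, hex⟩⟩
          have h6 : ((E.filter fun e' => src e' = x).card : ℚ) ≠ 0 := by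
            exact_mod_cast h5.ne'
          field_simp
        · intro e he
          rw [(Finset.mem_filter.1 he).2]
    have h2 : ∑ e ∈ EE, (1 : ℚ) / ((E.filter fun e' => tgt e' = tgt e).card : ℚ) ≤ N.card := by
      have hm : ∀ e ∈ EE, tgt e ∈ N := by
        intro e he
        obtain ⟨h3, h4⟩ := Finset.mem_filter.1 he
        rw [hT, Finset.mem_map] at h4
        obtain ⟨y, hy, hye⟩ := h4
        rw [hN, Finset.mem_biUnion]
        exact ⟨y, hy, Finset.mem_image.2 ⟨e, Finset.mem_filter.2 ⟨h3, hye.symm⟩, rfl⟩⟩
      rw [← Finset.sum_fiberwise_of_maps_to (s := EE) (t := N) (g := tgt) hm]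
      calc _ ≤ ∑ y ∈ N, (1 : ℚ) := by
            apply Finset.sum_le_sum
            intro y _
            rw [Finset.sum_congr rfl
              (g := fun _ => (1 : ℚ) / ((E.filter fun e' => tgt e' = y).card : ℚ))]
            · rw [Finset.sum_const, nsmul_eq_mul, mul_one_div]
              apply div_le_one_of_le₀
              · have h5 : (EE.filter fun e => tgt e = y) ⊆ (E.filter fun e' => tgt e' = y) := by
                  intro e he
                  simp only [hEE, Finset.mem_filter] at he ⊢
                  exact ⟨he.1.1, he.2⟩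
                exact_mod_cast Finset.card_le_card h5
              · positivity
            · intro e he
              rw [(Finset.mem_filter.1 he).2]
        _ = N.card := by simp
    have h3 : ∑ e ∈ EE, (1 : ℚ) / ((E.filter fun e' => src e' = src e).card : ℚ) ≤
        ∑ e ∈ EE, (1 : ℚ) / ((E.filter fun e' => tgt e' = tgt e).card : ℚ) := by
      apply Finset.sum_le_sum
      intro e he
      have heE := (Finset.mem_filter.1 he).1
      have h4 : 0 < (E.filter fun e' => tgt e' = tgt e).card :=
        Finset.card_pos.2 ⟨e, Finset.mem_filter.2 ⟨heE, rfl⟩⟩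
      apply one_div_le_one_div_of_le
      · exact_mod_cast h4
      · exact_mod_cast hdeg e heE
    have h4 : (T.card : ℚ) ≤ N.card := by
      rw [← h1]; exact h3.trans h2
    have h5 : T.card = s.card := by rw [hT, Finset.card_map]
    rw [← h5]
    exact_mod_cast h4
  obtain ⟨f, hf, hfm⟩ := key
  refine ⟨fun x => if h : x ∈ S then f ⟨x, h⟩ else default, ?_, ?_⟩
  · intro x hx y hy hxy
    have hx' : x ∈ S := hx
    have hy' : y ∈ S := hy
    simp only [hx', hy', dif_pos] at hxy
    have := hf hxy
    simpa using this
  · intro x hx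
    obtain ⟨e, he, hee⟩ := Finset.mem_image.1 (hfm ⟨x, hx⟩)
    obtain ⟨h1, h2⟩ := Finset.mem_filter.1 he
    exact ⟨e, h1, h2, by simp [hx, hee]⟩

end Pool.Agent.R527.TIL
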