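import Pool.Agent.R527.TIL.Defs

namespace Pool.Agent.R527.TIL

namespace INTV

theorem share_symm {T U : List ℕ} (h : Share T U) : Share U T := by
  obtain ⟨L, R, L', R', x, h1, h2, h3⟩ := h
  exact ⟨L', R', L, R, x, h2, h1, h3.symm⟩

theorem sum_ge {l : ℕ} {Q : List ℕ} (h : ∀ x ∈ Q, l ≤ x) (hQ : Q ≠ []) : l ≤ Q.sum := by
  cases Q with
  | nil => exact absurd rfl hQ
  | cons a Q =>
    have := h a (by simp)
    rw [List.sum_cons]
    omega

theorem gap_aux {l : ℕ} {v P P' : List ℕ} (hv : ∀ x ∈ v, l ≤ x) (hP' : P' <+: v)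
    (h : P <+: P') : P.sum = P'.sum ∨ P.sum + l ≤ P'.sum := by
  obtain ⟨Q, rfl⟩ := h
  rcases eq_or_ne Q [] with rfl | hQ
  · left
    simp
  · right
    have h1 := sum_ge (l := l) (Q := Q)
      (fun x hx => hv x (hP'.subset (List.mem_append_right _ hx))) hQ
    rw [List.sum_append]
    omega

theorem gap {l : ℕ} {v P P' : List ℕ} (hv : ∀ x ∈ v, l ≤ x) (hP : P <+: v) (hP' : P' <+: v) :
    P.sum = P'.sum ∨ P.sum + l ≤ P'.sum ∨ P'.sum + l ≤ P.sum := by
  rcases List.prefix_or_prefix_of_prefix hP hP' with h | h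
  · rcases gap_aux hv hP' h with h1 | h1
    · exact Or.inl h1
    · exact Or.inr (Or.inl h1)
  · rcases gap_aux hv hP h with h1 | h1
    · exact Or.inl h1.symm
    · exact Or.inr (Or.inr h1)

/-- Possible start positions. -/
theorem start {i j x : ℕ} {v L R : List ℕ} (h : i :: (v ++ [j]) = L ++ x :: R) :
    (L = [] ∧ x = i) ∨ ∃ P, L = i :: P ∧ P <+: v := by
  cases L with
  | nil =>
    left
    simp only [List.nil_append, List.cons.injEq] at h
    exact ⟨rfl, h.1.symm⟩
  | cons a P =>
    right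
    simp only [List.cons_append, List.cons.injEq] at h
    obtain ⟨rfl, h⟩ := h
    refine ⟨P, rfl, ?_⟩
    have hlen := congrArg List.length h
    simp only [List.length_append, List.length_cons, List.length_nil] at hlen
    have h1 : P <+: v ++ [j] := ⟨x :: R, h.symm⟩
    have h2 : v <+: v ++ [j] := ⟨[j], rfl⟩
    exact List.prefix_of_prefix_length_le h1 h2 (by omega)

theorem same {l i j i' j' : ℕ} {v : List ℕ} (hv : ∀ x ∈ v, l ≤ x) (hi : l ≤ i)
    (hi' : l ≤ i') (hi2 : i < 2 * l) (hi2' : i' < 2 * l) (hne : i ≠ i') :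
    ¬ Share (i :: (v ++ [j])) (i' :: (v ++ [j'])) := by
  rintro ⟨L, R, L', R', x, h1, h2, h3⟩
  rcases start h1 with ⟨rfl, hx⟩ | ⟨P, rfl, hP⟩
  · rcases start h2 with ⟨rfl, hx'⟩ | ⟨P', rfl, hP'⟩
    · exact hne (hx.symm.trans hx')
    · simp only [List.sum_nil, List.sum_cons] at h3
      omega
  · rcases start h2 with ⟨rfl, hx'⟩ | ⟨P', rfl, hP'⟩
    · simp only [List.sum_nil, List.sum_cons] at h3
      omega
    · simp only [List.sum_cons] at h3
      rcases gap hv hP hP' with h | h | h <;> omega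

theorem mixed {l i j i' j' : ℕ} {v : List ℕ} (hl : 2 ≤ l) (hv : ∀ x ∈ v, l ≤ x) (hi : l ≤ i)
    (hi2' : i' < 2 * l) (hlt : i < i') :
    ¬ Share (i :: ((l :: v) ++ [j])) (i' :: (v ++ [j'])) := by
  rintro ⟨L, R, L', R', x, h1, h2, h3⟩
  rcases start h1 with ⟨rfl, hx⟩ | ⟨P, rfl, hP⟩
  · rcases start h2 with ⟨rfl, hx'⟩ | ⟨P', rfl, hP'⟩
    · omega
    · simp only [List.sum_nil, List.sum_cons] at h3
      omega
  · rcases start h2 with ⟨rfl, hx'⟩ | ⟨P', rfl, hP'⟩
    · simp only [List.sum_nil, List.sum_cons] at h3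
      omega
    · simp only [List.sum_cons] at h3
      cases P with
      | nil =>
        simp only [List.sum_nil] at h3
        omega
      | cons a P =>
        obtain ⟨Q, hQ⟩ := hP
        simp only [List.cons_append, List.cons.injEq] at hQ
        obtain ⟨rfl, hQ⟩ := hQ
        simp only [List.sum_cons] at h3
        rcases gap hv ⟨Q, hQ⟩ hP' with h | h | h <;> omega

/-- The map. -/
def Th (l : ℕ) (T : List ℕ) : List ℕ :=
  if T.headI + T.tail.getLastD 0 < 3 * l then
    T.tail.dropLast ++ [T.headI + T.tail.getLastD 0 - l]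
  else l :: (T.tail.dropLast ++ [T.headI + T.tail.getLastD 0 - 2 * l])

theorem Th_eq (l i j : ℕ) (v : List ℕ) : Th l (i :: (v ++ [j])) =
    if i + j < 3 * l then v ++ [i + j - l] else l :: (v ++ [i + j - 2 * l]) := by
  simp [Th]

theorem split {l n : ℕ} (hl : 2 ≤ l) (hn : 2 * l ≤ n) {T : List ℕ}
    (hT : IsTiling (Finset.Icc l (2 * l - 1)) n T) : ∃ (i j : ℕ) (v : List ℕ),
      T = i :: (v ++ [j]) ∧ l ≤ i ∧ i < 2 * l ∧ l ≤ j ∧ j < 2 * l ∧
      (∀ x ∈ v, l ≤ x ∧ x < 2 * l) ∧ i + j + v.sum = n := by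
  obtain ⟨h1, h2⟩ := hT
  cases T with
  | nil =>
    simp only [List.sum_nil] at h2
    omega
  | cons i T =>
    have hi := h1 i (by simp)
    rw [Finset.mem_Icc] at hi
    rcases List.eq_nil_or_concat T with rfl | ⟨v, j, rfl⟩
    · simp only [List.sum_cons, List.sum_nil] at h2
      omega
    · have hj := h1 j (by simp)
      rw [Finset.mem_Icc] at hj
      refine ⟨i, j, v, by simp, hi.1, by omega, hj.1, by omega, ?_, ?_⟩
      · intro x hx
        have := h1 x (by simp [hx])
        rw [Finset.mem_Icc] at this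
        omega
      · simp only [List.concat_eq_append, List.sum_cons, List.sum_append, List.sum_nil] at h2
        omega

theorem Th_tiling {l n : ℕ} (hl : 2 ≤ l) (hn : 2 * l ≤ n) {T : List ℕ}
    (hT : IsTiling (Finset.Icc l (2 * l - 1)) n T) :
    IsTiling (Finset.Icc l (2 * l - 1)) (n - l) (Th l T) := by
  obtain ⟨i, j, v, rfl, hi, hi2, hj, hj2, hv, hs⟩ := split hl hn hT
  rw [Th_eq]
  split_ifs with h
  · refine ⟨?_, ?_⟩
    · intro x hx
      rw [Finset.mem_Icc]
      rcases List.mem_append.1 hx with h1 | h1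
      · have := hv x h1
        omega
      · rw [List.mem_singleton] at h1
        omega
    · rw [List.sum_append, List.sum_singleton]
      omega
  · refine ⟨?_, ?_⟩
    · intro x hx
      rw [Finset.mem_Icc]
      rcases List.mem_cons.1 hx with h1 | h1
      · omega
      rcases List.mem_append.1 h1 with h1 | h1
      · have := hv x h1
        omega
      · rw [List.mem_singleton] at h1
        omega
    · rw [List.sum_cons, List.sum_append, List.sum_singleton]
      omega

theorem Th_share {l n : ℕ} (hl : 2 ≤ l) (hn : 2 * l ≤ n) {T U : List ℕ}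
    (hT : IsTiling (Finset.Icc l (2 * l - 1)) n T)
    (hU : IsTiling (Finset.Icc l (2 * l - 1)) n U) (he : Th l T = Th l U) (hne : T ≠ U) :
    ¬ Share T U := by
  obtain ⟨i, j, v, rfl, hi, hi2, hj, hj2, hv, hs⟩ := split hl hn hT
  obtain ⟨i', j', v', rfl, hi', hi2', hj', hj2', hv', hs'⟩ := split hl hn hU
  rw [Th_eq, Th_eq] at he
  by_cases h : i + j < 3 * l
  · by_cases h' : i' + j' < 3 * l
    · rw [if_pos h, if_pos h'] at he
      obtain ⟨rfl, h3⟩ := List.append_inj' he rfl
      refine same (fun x hx => (hv x hx).1) hi hi' hi2 hi2' ?_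
      rintro rfl
      apply hne
      have : j = j' := by omega
      rw [this]
    · rw [if_pos h, if_neg h', ← List.cons_append] at he
      obtain ⟨rfl, h3⟩ := List.append_inj' he rfl
      simp only [List.cons.injEq, and_true] at h3
      exact mixed hl (fun x hx => (hv' x hx).1) hi hi2' (by omega)
  · by_cases h' : i' + j' < 3 * l
    · rw [if_neg h, if_pos h', ← List.cons_append] at he
      obtain ⟨rfl, h3⟩ := List.append_inj' he rfl
      simp only [List.cons.injEq, and_true] at h3
      exact fun hs => mixed hl (fun x hx => (hv x hx).1) hi' hi2 (by omega) (share_symm hs)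
    · rw [if_neg h, if_neg h'] at he
      rw [List.cons.injEq] at he
      obtain ⟨rfl, h3⟩ := List.append_inj' he.2 rfl
      simp only [List.cons.injEq, and_true] at h3
      refine same (fun x hx => (hv x hx).1) hi hi' hi2 hi2' ?_
      rintro rfl
      apply hne
      have : j = j' := by omega
      rw [this]

theorem fin_tilings (l m : ℕ) (hl : 2 ≤ l) :
    {T | IsTiling (Finset.Icc l (2 * l - 1)) m T}.Finite := by
  refine Set.Finite.subset ((List.finite_length_le (Fin (2 * l)) m).image
    (fun L : List (Fin (2 * l)) => L.map Fin.val)) ?_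
  rintro T ⟨h1, h2⟩
  have hlt : ∀ x ∈ T, x < 2 * l := by
    intro x hx
    have := h1 x hx
    rw [Finset.mem_Icc] at this
    omega
  refine ⟨T.pmap (fun x hx => (⟨x, hx⟩ : Fin (2 * l))) hlt, ?_, ?_⟩
  · simp only [Set.mem_ofPred_eq, List.length_pmap]
    rw [← h2]
    exact List.length_le_sum_of_one_le _ fun x hx => by
      have := h1 x hx
      rw [Finset.mem_Icc] at this
      omega
  · change List.map Fin.val (List.pmap _ T hlt) = T
    rw [List.map_pmap]
    simp

end INTV

open INTV in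
theorem t_INTV : S_INTV := by
  intro l hl
  refine ⟨2 * l, fun n hn F hF hS => ?_⟩
  classical
  have hinj : Set.InjOn (Th l) (F : Set (List ℕ)) := by
    intro T hT U hU he
    by_contra hne
    exact Th_share hl hn (hF T hT) (hF U hU) he hne (hS T hT U hU hne)
  rw [← Set.ncard_coe_finset, ← Set.InjOn.ncard_image hinj]
  refine Set.ncard_le_ncard ?_ (fin_tilings l (n - l) hl)
  rintro _ ⟨T, hT, rfl⟩
  exact Th_tiling hl hn (hF T hT)

end Pool.Agent.R527.TIL
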