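import Pool.Agent.R527.TIL.Defs

namespace Pool.Agent.R527.TIL

/-- `Q t w`: occurrences of `b^t a`. -/
def Qo (t : ℕ) (w : W) : ℕ := occ (List.replicate t true ++ [false]) w

/-- `R t w`: occurrences of `b^t`. -/
def Ro (t : ℕ) (w : W) : ℕ := occ (List.replicate t true) w

theorem Qo_mono (o4 : ∀ x Y y w, occ (x ++ Y ++ y) w ≤ occ Y w) {s t : ℕ} (h : s ≤ t) (w : W) :
    Qo t w ≤ Qo s w := by
  obtain ⟨d, rfl⟩ := Nat.exists_eq_add_of_le h
  have := o4 (List.replicate d true) (List.replicate s true ++ [false]) [] w
  have e : List.replicate d true ++ (List.replicate s true ++ [false]) ++ []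
      = List.replicate (s + d) true ++ [false] := by
    rw [List.append_nil, ← List.append_assoc, ← List.replicate_add, Nat.add_comm]
  rw [e] at this
  exact this

theorem Ro_mono (o4 : ∀ x Y y w, occ (x ++ Y ++ y) w ≤ occ Y w) {s t : ℕ} (h : s ≤ t) (w : W) :
    Ro t w ≤ Ro s w := by
  obtain ⟨d, rfl⟩ := Nat.exists_eq_add_of_le h
  have := o4 (List.replicate d true) (List.replicate s true) [] w
  have e : List.replicate d true ++ (List.replicate s true) ++ []
      = List.replicate (s + d) true := by
    rw [List.append_nil, ← List.replicate_add, Nat.add_comm]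
  rw [e] at this
  exact this

theorem cf (n : ℕ) : (List.replicate n true).count false = 0 := by
  rw [List.count_eq_zero]
  intro h
  have := List.eq_of_mem_replicate h
  simp at this

theorem t_KILL : S_OCC → S_CALC → S_KILL := by
  intro hO hC α β hα hβ
  obtain ⟨o1, o2, o3, o4, o5⟩ := hO
  obtain ⟨h1, h2, h3, h4, h5, h6⟩ := hC α β
  -- step (1)
  have s1 : ∀ j : ℕ, Ach α β (fun w => (Qo (j + α) w : ℤ) - Qo (j + α + 1) w) := by
    intro j
    have e1 : List.replicate j true ++ List.replicate α true ++ [false]
        = List.replicate (j + α) true ++ [false] := by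
      rw [← List.replicate_add]
    rcases Nat.even_or_odd' β with ⟨h, hh | hh⟩
    · have a1 := h6 (List.replicate j true) (List.replicate α true) [false] h 0
        (by simp) (by rw [cf]; omega)
      refine h2 _ _ a1 (fun w => ?_)
      have e2 : List.replicate j true ++ (List.replicate (2 * h) true ++ List.replicate 0 false)
          ++ [false] = List.replicate (j + 2 * h) true ++ [false] := by
        rw [List.replicate_zero, List.append_nil, ← List.replicate_add]
      rw [e1, e2]
      have := Qo_mono o4 (show j + α + 1 ≤ j + 2 * h by omega) w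
      have h7 : (Qo (j + 2 * h) w : ℤ) ≤ Qo (j + α + 1) w := by exact_mod_cast this
      show (Qo (j + α) w : ℤ) - Qo (j + α + 1) w ≤ (Qo (j + α) w : ℤ) - Qo (j + 2 * h) w
      linarith
    · have a1 := h6 (List.replicate j true) (List.replicate α true) [false] h 1
        (by simp) (by rw [cf]; omega)
      have a2 := h6 (List.replicate j true) (List.replicate α true ++ [false]) [false] (h + 1) 0
        (by simp) (by rw [List.count_append, cf]; simp; omega)
      refine h2 _ _ (h1 _ _ a1 a2) (fun w => ?_)
      have e2 : List.replicate j true ++ (List.replicate (2 * h) true ++ List.replicate 1 false)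
          ++ [false] = List.replicate (j + 2 * h) true ++ [false, false] := by
        rw [List.replicate_one, ← List.append_assoc, ← List.replicate_add, List.append_assoc]
        rfl
      have e3 : List.replicate j true ++ (List.replicate α true ++ [false]) ++ [false]
          = List.replicate (j + α) true ++ [false, false] := by
        rw [← List.append_assoc, ← List.replicate_add, List.append_assoc]
        rfl
      have e4 : List.replicate j true ++ (List.replicate (2 * (h + 1)) true
          ++ List.replicate 0 false) ++ [false]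
          = List.replicate (j + 2 * (h + 1)) true ++ [false] := by
        rw [List.replicate_zero, List.append_nil, ← List.replicate_add]
      rw [e1, e2, e3, e4]
      have i1 := Qo_mono o4 (show j + α + 1 ≤ j + 2 * (h + 1) by omega) w
      have i2 : occ (List.replicate (j + 2 * h) true ++ [false, false]) w
          ≤ occ (List.replicate (j + α) true ++ [false, false]) w := by
        have := o4 (List.replicate (2 * h - α) true)
          (List.replicate (j + α) true ++ [false, false]) [] w
        have e : List.replicate (2 * h - α) true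
            ++ (List.replicate (j + α) true ++ [false, false]) ++ []
            = List.replicate (j + 2 * h) true ++ [false, false] := by
          rw [List.append_nil, ← List.append_assoc, ← List.replicate_add]
          congr 2
          omega
        rw [e] at this
        exact this
      have i1' : (Qo (j + 2 * (h + 1)) w : ℤ) ≤ Qo (j + α + 1) w := by exact_mod_cast i1
      have i2' : (occ (List.replicate (j + 2 * h) true ++ [false, false]) w : ℤ)
          ≤ occ (List.replicate (j + α) true ++ [false, false]) w := by exact_mod_cast i2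
      show (Qo (j + α) w : ℤ) - Qo (j + α + 1) w ≤
        ((Qo (j + α) w : ℤ) - occ (List.replicate (j + 2 * h) true ++ [false, false]) w)
        + (occ (List.replicate (j + α) true ++ [false, false]) w - (Qo (j + 2 * (h + 1)) w : ℤ))
      linarith
  -- step (2)
  have s2 : ∀ J : ℕ, Ach α β (fun w => (Qo α w : ℤ) - Qo (α + J) w) := by
    intro J
    induction J with
    | zero =>
      refine h2 _ _ (h3 0 _ (s1 0)) (fun w => ?_)
      simp
    | succ J ih =>
      refine h2 _ _ (h1 _ _ ih (s1 J)) (fun w => ?_)
      have e : J + α = α + J := Nat.add_comm _ _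
      show (Qo α w : ℤ) - Qo (α + (J + 1)) w ≤
        ((Qo α w : ℤ) - Qo (α + J) w) + ((Qo (J + α) w : ℤ) - Qo (J + α + 1) w)
      rw [e]
      have e' : α + (J + 1) = α + J + 1 := rfl
      rw [e']
      linarith
  -- step (3)
  have s3 : Ach α β (fun w => (Ro (3 * α) w : ℤ) - Qo α w) := by
    have hm := Mv.B (α := α) (β := β) (List.replicate α true) (List.replicate α true)
      (List.replicate α true) (by simp)
    refine h2 _ _ (h4 _ _ hm) (fun w => ?_)
    have e1 : List.replicate α true ++ List.replicate α true ++ List.replicate α true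
        = List.replicate (3 * α) true := by
      rw [← List.replicate_add, ← List.replicate_add]
      congr 1
      omega
    obtain ⟨γ, hγ⟩ : ∃ γ, β = γ + 1 := ⟨β - 1, by omega⟩
    have e2 : List.replicate α true
        ++ List.replicate ((List.replicate α true).count false + β) false
        ++ List.replicate α true
        = [] ++ (List.replicate α true ++ [false])
          ++ (List.replicate γ false ++ List.replicate α true) := by
      rw [cf, hγ, Nat.zero_add, List.replicate_succ]
      simp
    rw [e1, e2]
    have := o4 [] (List.replicate α true ++ [false])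
      (List.replicate γ false ++ List.replicate α true) w
    have h7 : (occ ([] ++ (List.replicate α true ++ [false])
          ++ (List.replicate γ false ++ List.replicate α true)) w : ℤ) ≤ Qo α w := by
      exact_mod_cast this
    show (Ro (3 * α) w : ℤ) - Qo α w ≤ (Ro (3 * α) w : ℤ) - _
    linarith
  -- step (4)
  have r2 : ∀ t w, Qo t w + Ro (t + 1) w ≤ Ro t w := by
    intro t w
    have := o2 (List.replicate t true) w
    rw [← List.replicate_succ'] at this
    exact this
  have r3 : ∀ t w, Ro t w ≤ Qo t w + Ro (t + 1) w + 1 := by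
    intro t w
    have := o3 (List.replicate t true) w
    rw [← List.replicate_succ'] at this
    exact this
  have s4 : Ach α β (fun w => 2 * (Qo α w : ℤ) + Ro (3 * α) w) := by
    refine h2 _ _ (h1 _ _ (h3 4 _ (s2 (2 * α + 3))) (h3 2 _ s3)) (fun w => ?_)
    have a0 := r2 (3 * α) w
    have a1 := r2 (3 * α + 1) w
    have a2 := r2 (3 * α + 1 + 1) w
    have a3 := r2 (3 * α + 1 + 1 + 1) w
    have b0 := Qo_mono o4 (show 3 * α ≤ 3 * α + 3 by omega) w
    have b1 := Qo_mono o4 (show 3 * α + 1 ≤ 3 * α + 3 by omega) w
    have b2 := Qo_mono o4 (show 3 * α + 1 + 1 ≤ 3 * α + 3 by omega) w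
    have e : α + (2 * α + 3) = 3 * α + 3 := by omega
    have e' : 3 * α + 1 + 1 + 1 = 3 * α + 3 := rfl
    rw [e'] at a3
    show 2 * (Qo α w : ℤ) + Ro (3 * α) w ≤
      ((4 : ℕ) : ℤ) * ((Qo α w : ℤ) - Qo (α + (2 * α + 3)) w)
      + ((2 : ℕ) : ℤ) * ((Ro (3 * α) w : ℤ) - Qo α w)
    rw [e]
    have key : 4 * Qo (3 * α + 3) w ≤ Ro (3 * α) w := by
      have e'' : 3 * α + 1 + 1 + 1 = 3 * α + 3 := rfl
      rw [e''] at a2
      omega
    have key' : 4 * (Qo (3 * α + 3) w : ℤ) ≤ Ro (3 * α) w := by exact_mod_cast key
    push_cast
    linarith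
  -- step (5)
  have s5 : ∀ n w, Ro α w ≤ n * Qo α w + n + Ro (α + n) w := by
    intro n w
    induction n with
    | zero => simp
    | succ n ih =>
      have a := r3 (α + n) w
      have b := Qo_mono o4 (show α ≤ α + n by omega) w
      have e : α + (n + 1) = α + n + 1 := rfl
      rw [e, Nat.succ_mul]
      omega
  refine ⟨2 * α, ?_⟩
  refine h2 _ _ (h3 (2 * α) _ s4) (fun w => ?_)
  have a := s5 (2 * α) w
  have e : α + 2 * α = 3 * α := by omega
  rw [e] at a
  have a' : (Ro α w : ℤ) ≤ 2 * α * Qo α w + 2 * α + Ro (3 * α) w := by exact_mod_cast a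
  show (Ro α w : ℤ) - 2 * α ≤ ((2 * α : ℕ) : ℤ) * (2 * (Qo α w : ℤ) + Ro (3 * α) w)
  push_cast
  have p1 : (0 : ℤ) ≤ Qo α w := Int.natCast_nonneg _
  have p2 : (0 : ℤ) ≤ Ro (3 * α) w := Int.natCast_nonneg _
  have p3 : (1 : ℤ) ≤ α := by exact_mod_cast hα
  have q1 : (0 : ℤ) ≤ (α : ℤ) * Qo α w := mul_nonneg (by linarith) p1
  have q2 : (Ro (3 * α) w : ℤ) ≤ (α : ℤ) * Ro (3 * α) w := by nlinarith
  nlinarith

end Pool.Agent.R527.TIL
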