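import Pool.Agent.R527.TIL.Defs

namespace Pool.Agent.R527.TIL

/-- a word without the factor `a^(m+1)` is short -/
theorem long_factor (m : ℕ) : ∀ (n : ℕ) (Y : W), Y.length = n →
    (m + 1) * (Y.count true + 1) ≤ Y.length →
    ∃ x y : W, Y = x ++ List.replicate (m + 1) false ++ y := by
  intro n
  induction n using Nat.strong_induction_on with
  | _ n ih =>
  intro Y hn hlen
  by_cases h : ∀ c ∈ Y.take (m + 1), c = false
  · have hl : m + 1 ≤ Y.length := by
      refine le_trans ?_ hlen
      exact Nat.le_mul_of_pos_right _ (by omega)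
    refine ⟨[], Y.drop (m + 1), ?_⟩
    have h1 : Y.take (m + 1) = List.replicate (m + 1) false := by
      rw [List.eq_replicate_iff]
      exact ⟨by rw [List.length_take]; omega, h⟩
    rw [List.nil_append, ← h1, List.take_append_drop]
  · push Not at h
    obtain ⟨c, hc, hcf⟩ := h
    have hct : c = true := by cases c <;> simp_all
    subst hct
    obtain ⟨p, q, hpq⟩ := List.append_of_mem hc
    have hplen : p.length ≤ m := by
      have := congrArg List.length hpq
      rw [List.length_take, List.length_append, List.length_cons] at this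
      omega
    have hY : Y = p ++ [true] ++ (q ++ Y.drop (m + 1)) := by
      calc Y = Y.take (m + 1) ++ Y.drop (m + 1) := (List.take_append_drop _ _).symm
        _ = (p ++ true :: q) ++ Y.drop (m + 1) := by rw [← hpq]
        _ = p ++ [true] ++ (q ++ Y.drop (m + 1)) := by simp
    generalize q ++ Y.drop (m + 1) = Z at hY
    have hcount : Z.count true + 1 ≤ Y.count true := by
      rw [hY, List.count_append, List.count_append]
      simp <;> omega
    have hZlen : Y.length = p.length + 1 + Z.length := by
      rw [hY]; simp; omega
    have h2 : (m + 1) * (Z.count true + 1) ≤ Z.length := by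
      have h3 : (m + 1) * (Z.count true + 1 + 1) ≤ (m + 1) * (Y.count true + 1) :=
        Nat.mul_le_mul_left _ (by omega)
      have h4 : (m + 1) * (Z.count true + 1 + 1) = (m + 1) * (Z.count true + 1) + (m + 1) := by ring
      omega
    obtain ⟨x, y, hxy⟩ := ih Z.length (by omega) Z rfl h2
    refine ⟨p ++ [true] ++ x, y, ?_⟩
    rw [hY, hxy]
    simp [List.append_assoc]

/-- a word with at least `α` letters `b` has an initial factor with exactly `α` of them -/
theorem long_split (α : ℕ) : ∀ Y : W, α ≤ Y.count true → ∃ X y : W, Y = X ++ y ∧ X.count true = α := by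
  intro Y
  induction Y using List.reverseRecOn with
  | nil =>
    intro h
    have h0 : α = 0 := by simpa using h
    exact ⟨[], [], rfl, by simp [h0]⟩
  | append_singleton Y c ih =>
    intro h
    by_cases h1 : α ≤ Y.count true
    · obtain ⟨X, y, hXy, hX⟩ := ih h1
      exact ⟨X, y ++ [c], by rw [hXy, List.append_assoc], hX⟩
    · refine ⟨Y ++ [c], [], by simp, ?_⟩
      rw [List.count_append] at h ⊢
      have : [c].count true ≤ 1 := by cases c <;> simp
      omega

theorem t_LONG : S_OCC → S_CALC → S_LONG := by
  intro hO hC α β hα hαβ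
  obtain ⟨-, -, -, hO4, -⟩ := hO
  obtain ⟨-, hmono, -, -, hA, hB⟩ := hC α β
  obtain ⟨h, hh1, hh2⟩ : ∃ h : ℕ, α ≤ 2 * h ∧ 2 * h ≤ α + 1 := ⟨(α + 1) / 2, by omega, by omega⟩
  obtain ⟨m, hm⟩ : ∃ m, 2 * h = m + 1 := ⟨2 * h - 1, by omega⟩
  obtain ⟨e, he⟩ : ∃ e, 2 * h = α + e := ⟨2 * h - α, by omega⟩
  refine ⟨2 * h * (α + 1), ?_⟩
  intro Y hY
  by_cases hc : α ≤ Y.count true
  · obtain ⟨X, y, hXy, hX⟩ := long_split α Y hc
    obtain ⟨r, hr⟩ : ∃ r, X.count false + β = 2 * h + r := ⟨X.count false + β - 2 * h, by omega⟩
    refine hmono _ _ (hB [] X y h r hX hr) (fun w => ?_)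
    have h1 := hO4 [] (List.replicate α true)
      (List.replicate e true ++ List.replicate r false ++ y) w
    have e1 : [] ++ List.replicate α true ++ (List.replicate e true ++ List.replicate r false ++ y) =
        [] ++ (List.replicate (2 * h) true ++ List.replicate r false) ++ y := by
      rw [he, List.replicate_add]
      simp only [List.append_assoc, List.nil_append, List.replicate_zero, List.append_nil]
    rw [e1] at h1
    have h2 : (occ ([] ++ (List.replicate (2 * h) true ++ List.replicate r false) ++ y) w : ℤ) ≤
        occ (List.replicate α true) w := by exact_mod_cast h1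
    have e2 : [] ++ X ++ y = Y := by rw [hXy]; simp
    rw [e2]
    linarith
  · have hlen : (m + 1) * (Y.count true + 1) ≤ Y.length := by
      refine le_trans ?_ hY
      rw [hm]
      exact Nat.mul_le_mul_left _ (by omega)
    obtain ⟨x, y, hxy⟩ := long_factor m Y.length Y rfl hlen
    rw [← hm] at hxy
    refine hmono _ _ (hA x y h 0) (fun w => ?_)
    have h1 := hO4 x (List.replicate α true) (List.replicate e true ++ y) w
    have e1 : x ++ List.replicate α true ++ (List.replicate e true ++ y) =
        x ++ (List.replicate (2 * h) true ++ List.replicate 0 false) ++ y := by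
      rw [he, List.replicate_add]
      simp only [List.append_assoc, List.nil_append, List.replicate_zero, List.append_nil]
    rw [e1] at h1
    have h2 : (occ (x ++ (List.replicate (2 * h) true ++ List.replicate 0 false) ++ y) w : ℤ) ≤
        occ (List.replicate α true) w := by exact_mod_cast h1
    have e2 : x ++ List.replicate (2 * h + 0) false ++ y = Y := by rw [hxy, add_zero]
    rw [e2]
    linarith

end Pool.Agent.R527.TIL
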