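import Pool.Agent.R527.TIL.Defs

namespace Pool.Agent.R527.TIL

namespace MatchAux

open Finset

/-- The decompositions `w = u ++ X ++ v`. -/
def P (X : W) : W → Finset (W × W)
  | [] => if X.isPrefixOf [] then {([], [])} else ∅
  | c :: w => (if X.isPrefixOf (c :: w) then {([], (c :: w).drop X.length)} else ∅) ∪
      (P X w).image (fun p => (c :: p.1, p.2))

theorem mem_P (X : W) : ∀ (w u v : W), (u, v) ∈ P X w ↔ u ++ X ++ v = w
  | [], u, v => by
    unfold P
    split_ifs with h
    · rw [List.isPrefixOf_iff_prefix, List.prefix_nil] at h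
      subst h
      simp
    · rw [List.isPrefixOf_iff_prefix, List.prefix_nil] at h
      simp [h]
  | c :: w, [], v => by
    unfold P
    rw [mem_union]
    have h1 : (([] : W), v) ∉ (P X w).image (fun p => (c :: p.1, p.2)) := by
      intro h
      obtain ⟨p, _, hp⟩ := mem_image.1 h
      simp at hp
    have h2 : X.isPrefixOf (c :: w) = true ↔ X ++ (c :: w).drop X.length = c :: w := by
      rw [List.isPrefixOf_iff_prefix, List.prefix_iff_eq_append]
    rw [List.nil_append]
    constructor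
    · rintro (h | h)
      · split_ifs at h with h3
        · rw [mem_singleton, Prod.mk.injEq] at h
          rw [h.2]
          exact h2.1 h3
        · simp at h
      · exact absurd h h1
    · intro h
      left
      have h3 : (c :: w).drop X.length = v := by rw [← h, List.drop_left]
      have h4 : X.isPrefixOf (c :: w) = true := by
        rw [h2, h3, h]
      rw [if_pos h4, h3, mem_singleton]
  | c :: w, d :: u, v => by
    unfold P
    rw [mem_union]
    have ih := mem_P X w u v
    constructor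
    · rintro (h | h)
      · split_ifs at h with h3
        · simp at h
        · simp at h
      · obtain ⟨p, hp, he⟩ := mem_image.1 h
        simp only [Prod.mk.injEq, List.cons.injEq] at he
        obtain ⟨⟨rfl, rfl⟩, rfl⟩ := he
        have := (mem_P X w p.1 p.2).1 hp
        rw [List.cons_append, List.cons_append, this]
    · intro h
      right
      rw [List.cons_append, List.cons_append, List.cons.injEq] at h
      obtain ⟨rfl, h⟩ := h
      exact mem_image.2 ⟨(u, v), ih.2 h, rfl⟩

theorem card_P (X : W) : ∀ w : W, (P X w).card = occ X w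
  | [] => by
    unfold P occ
    split_ifs <;> simp
  | c :: w => by
    unfold P occ
    rw [card_union_of_disjoint, card_image_of_injective, card_P X w]
    · split_ifs <;> simp
    · intro p q h
      simp only [Prod.mk.injEq, List.cons.injEq, true_and] at h
      exact Prod.ext h.1 h.2
    · rw [disjoint_left]
      intro p hp hp'
      obtain ⟨q, _, rfl⟩ := mem_image.1 hp'
      split_ifs at hp <;> simp at hp

theorem wt_append (a b : ℕ) (u v : W) : wt a b (u ++ v) = wt a b u + wt a b v := by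
  simp [wt, tl]

theorem length_le_wt (a b : ℕ) (ha : 0 < a) (hab : a < b) : ∀ w : W, w.length ≤ wt a b w
  | [] => by simp
  | c :: w => by
    have ih := length_le_wt a b ha hab w
    have h : wt a b (c :: w) = (if c then b else a) + wt a b w := by
      simp [wt, tl]
    rw [h, List.length_cons]
    split_ifs <;> omega

theorem wt_le (a b : ℕ) (hab : a < b) : ∀ w : W, wt a b w ≤ b * w.length
  | [] => by simp [wt, tl]
  | c :: w => by
    have ih := wt_le a b hab w
    have h : wt a b (c :: w) = (if c then b else a) + wt a b w := by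
      simp [wt, tl]
    rw [h, List.length_cons, mul_add, mul_one]
    split_ifs <;> omega

theorem mv_context {α β : ℕ} {X X' : W} (h : Mv α β X X') (u v : W) :
    Mv α β (u ++ X ++ v) (u ++ X' ++ v) := by
  cases h with
  | A x y =>
    have := Mv.A (α := α) (β := β) (u ++ x) (y ++ v)
    simpa only [List.append_assoc] using this
  | B x X y h =>
    have := Mv.B (α := α) (β := β) (u ++ x) X (y ++ v) h
    simpa only [List.append_assoc] using this

theorem finite_wt (a b : ℕ) (ha : 0 < a) (hab : a < b) (m : ℕ) :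
    {w : W | wt a b w = m}.Finite := by
  refine Set.Finite.subset (List.finite_length_le Bool m) ?_
  intro w hw
  have := length_le_wt a b ha hab w
  have hw' : wt a b w = m := hw
  change w.length ≤ m
  omega

section edges

variable {K : ℕ} (X X' : Fin K → W) (S : Finset W)

/-- the edges -/
def E : Finset (W × Fin K × W) :=
  S.biUnion (fun w => univ.biUnion (fun k => (P (X k) w).image (fun p => (p.1, k, p.2))))

theorem mem_E (u : W) (k : Fin K) (v : W) : (u, k, v) ∈ E X S ↔ u ++ X k ++ v ∈ S := by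
  unfold E
  simp only [mem_biUnion, mem_image, mem_univ, true_and, Prod.mk.injEq]
  constructor
  · rintro ⟨w, hw, k', p, hp, rfl, rfl, rfl⟩
    rwa [(mem_P _ _ _ _).1 hp]
  · intro h
    exact ⟨_, h, k, (u, v), (mem_P _ _ _ _).2 rfl, rfl, rfl, rfl⟩

theorem deg_src (w : W) (hw : w ∈ S) : ∑ k, occ (X k) w ≤
    ((E X S).filter (fun e => e.1 ++ X e.2.1 ++ e.2.2 = w)).card := by
  have h : ∑ k, occ (X k) w = (univ.sigma (fun k => P (X k) w)).card := by
    rw [card_sigma]
    exact sum_congr rfl fun k _ => (card_P _ _).symm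
  rw [h]
  refine card_le_card_of_injOn (fun q => (q.2.1, q.1, q.2.2)) ?_ ?_
  · rintro ⟨k, u, v⟩ hq
    have hq' := (mem_P _ _ _ _).1 (mem_sigma.1 hq).2
    refine mem_coe.2 (mem_filter.2 ⟨(mem_E X S _ _ _).2 ?_, hq'⟩)
    change u ++ X k ++ v ∈ S
    rwa [hq']
  · rintro ⟨k, u, v⟩ _ ⟨k', u', v'⟩ _ h
    simp only [Prod.mk.injEq] at h
    obtain ⟨rfl, rfl, rfl⟩ := h
    rfl

theorem deg_tgt (y : W) : ((E X S).filter (fun e => e.1 ++ X' e.2.1 ++ e.2.2 = y)).card ≤
    ∑ k, occ (X' k) y := by
  have h : ∑ k, occ (X' k) y = (univ.sigma (fun k => P (X' k) y)).card := by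
    rw [card_sigma]
    exact sum_congr rfl fun k _ => (card_P _ _).symm
  rw [h]
  refine card_le_card_of_injOn (fun e => ⟨e.2.1, e.1, e.2.2⟩) ?_ ?_
  · rintro ⟨u, k, v⟩ hq
    exact mem_coe.2 (mem_sigma.2 ⟨mem_univ _, (mem_P _ _ _ _).2 (mem_filter.1 hq).2⟩)
  · rintro ⟨u, k, v⟩ _ ⟨u', k', v'⟩ _ h
    simp only [Sigma.mk.injEq] at h
    obtain ⟨rfl, h⟩ := h
    have h' := eq_of_heq h
    simp only [Prod.mk.injEq] at h'
    obtain ⟨rfl, rfl⟩ := h'
    rfl

end edges

end MatchAux

open MatchAux Finset in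
theorem t_MATCH : S_OCC → S_HALL → S_MATCH := by
  intro hocc hhall α β a b ha hab ⟨C, M, hM, hC⟩
  obtain ⟨-, -, -, -, h5⟩ := hocc
  set K := M.length with hK
  set X : Fin K → W := fun k => (M.get k).1 with hX
  set X' : Fin K → W := fun k => (M.get k).2 with hX'
  have hmv : ∀ k, Mv α β (X k) (X' k) := fun k => hM _ (List.get_mem M k)
  have hsum : ∀ w : W, (w.length : ℤ) - C ≤ (∑ k, (occ (X k) w : ℤ)) - ∑ k, (occ (X' k) w : ℤ) := by
    intro w
    refine (hC w).trans (le_of_eq ?_)
    rw [← sum_sub_distrib]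
    exact (Fin.sum_univ_fun_getElem M (fun p => (occ p.1 w : ℤ) - occ p.2 w)).symm
  set L : ℕ := ∑ k, (X' k).length with hL
  set B : ℕ := C.toNat + K * L + L + 1 with hB
  refine ⟨b * B, fun m hm => ?_⟩
  set S : Finset W := (finite_wt a b ha hab m).toFinset with hS
  have memS : ∀ w, w ∈ S ↔ wt a b w = m := fun w => (finite_wt a b ha hab m).mem_toFinset
  have hlen : ∀ w ∈ S, B ≤ w.length := by
    intro w hw
    rw [memS] at hw
    have h1 := wt_le a b hab w
    rw [hw] at h1
    exact Nat.le_of_mul_le_mul_left (hm.trans h1) (by omega)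
  have H1 : ∀ w ∈ S, ∃ e ∈ E X S, e.1 ++ X e.2.1 ++ e.2.2 = w := by
    intro w hw
    have d1 := deg_src X S w hw
    have d2 := hsum w
    have d3 := hlen w hw
    have d4 : C ≤ (C.toNat : ℤ) := Int.self_le_toNat C
    have d5 : (0 : ℤ) ≤ ∑ k, (occ (X' k) w : ℤ) := sum_nonneg fun _ _ => Nat.cast_nonneg _
    have d6 : (B : ℤ) ≤ w.length := by exact_mod_cast d3
    have d7 : (B : ℤ) = (C.toNat : ℤ) + K * L + L + 1 := by rw [hB]; push_cast; ring
    have d8 : (0 : ℤ) ≤ (K : ℤ) * L := by positivity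
    have d9 : (1 : ℤ) ≤ ∑ k, (occ (X k) w : ℤ) := by linarith
    have d10 : 1 ≤ ∑ k, occ (X k) w := by exact_mod_cast d9
    obtain ⟨e, he⟩ := card_pos.1 (lt_of_lt_of_le Nat.one_pos (d10.trans d1))
    rw [mem_filter] at he
    exact ⟨e, he.1, he.2⟩
  have H2 : ∀ e ∈ E X S, ((E X S).filter (fun e' => e'.1 ++ X' e'.2.1 ++ e'.2.2 =
      e.1 ++ X' e.2.1 ++ e.2.2)).card ≤
      ((E X S).filter (fun e' => e'.1 ++ X e'.2.1 ++ e'.2.2 = e.1 ++ X e.2.1 ++ e.2.2)).card := by
    rintro ⟨u, k, v⟩ he
    rw [mem_E] at he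
    change ((E X S).filter (fun e => e.1 ++ X' e.2.1 ++ e.2.2 = u ++ X' k ++ v)).card ≤
      ((E X S).filter (fun e => e.1 ++ X e.2.1 ++ e.2.2 = u ++ X k ++ v)).card
    refine (deg_tgt X X' S _).trans (le_trans ?_ (deg_src X S _ he))
    have d1 := hsum (u ++ X k ++ v)
    have d2 := hlen _ he
    have hk : (X' k).length ≤ L := single_le_sum (f := fun k => (X' k).length)
      (fun _ _ => Nat.zero_le _) (mem_univ k)
    have d3 : ∑ j, occ (X' j) (u ++ X' k ++ v) ≤
        ∑ j, (occ (X' j) (u ++ X k ++ v) + L + (X' j).length) :=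
      sum_le_sum fun j _ => (h5 (X' j) u (X' k) (X k) v).trans (by omega)
    rw [sum_add_distrib, sum_add_distrib, sum_const, card_univ, Fintype.card_fin, smul_eq_mul,
      ← hL] at d3
    have d4 : C ≤ (C.toNat : ℤ) := Int.self_le_toNat C
    have d3' : ((∑ j, occ (X' j) (u ++ X' k ++ v) : ℕ) : ℤ) ≤
        ((∑ j, occ (X' j) (u ++ X k ++ v) : ℕ) : ℤ) + K * L + L := by exact_mod_cast d3
    have d2' : (C.toNat : ℤ) + K * L + L + 1 ≤ ((u ++ X k ++ v).length : ℤ) := by
      have : (B : ℤ) ≤ ((u ++ X k ++ v).length : ℤ) := by exact_mod_cast d2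
      rw [hB] at this
      push_cast at this ⊢
      linarith
    have d5 : ((∑ j, occ (X' j) (u ++ X' k ++ v) : ℕ) : ℤ) ≤
        ((∑ j, occ (X j) (u ++ X k ++ v) : ℕ) : ℤ) := by
      rw [Nat.cast_sum (R := ℤ) (s := univ) (f := fun j => occ (X j) (u ++ X k ++ v))]
      rw [Nat.cast_sum (R := ℤ) (s := univ) (f := fun j => occ (X' j) (u ++ X k ++ v))] at d3'
      linarith
    exact_mod_cast d5
  obtain ⟨Φ, h1, h2⟩ := hhall (W × Fin K × W) W W (E X S) (fun e => e.1 ++ X e.2.1 ++ e.2.2)
    (fun e => e.1 ++ X' e.2.1 ++ e.2.2) S H1 H2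
  refine ⟨Φ, ?_, ?_⟩
  · intro w hw w' hw' h
    exact h1 ((memS w).2 hw) ((memS w').2 hw') h
  · intro w hw
    obtain ⟨e, _, he1, he2⟩ := h2 w ((memS w).2 hw)
    rw [← he2, ← he1]
    exact mv_context (hmv _) _ _

end Pool.Agent.R527.TIL
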